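import Pool.Agent.TH802.Chev.Main

/-!
The neighbourhood of the tile `2` encloses the tile `0`.
-/

set_option autoImplicit false

namespace Pool.Agent.TH802.Chev

/-- the tile `2` in terms of inequalities -/
theorem mem_A2 {z : ℂ} (h : z ∈ A 2 0 0) : z - ⟨2, -2⟩ ∈ A 0 0 0 := by
  rw [A_eq] at h
  obtain ⟨w, hw, rfl⟩ := h
  have : gP 2 0 0 w - ⟨2, -2⟩ = w := by
    have h1 : uu 2 = 2 := rfl
    have h2 : vv 2 = -2 := rfl
    have h3 : kk 2 = 0 := rfl
    apply Complex.ext <;> simp [gP, trP, h1, h2, h3]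
  rw [this]
  exact hw

theorem disj02 : ¬ (A 0 0 0 ∩ A 2 0 0).Nonempty := by
  rintro ⟨z, h0, h2⟩
  have h3 := mem_A2 h2
  rw [mem_A0] at h0 h3
  simp only [Complex.sub_re, Complex.sub_im] at h3
  rcases h0 with ⟨a1, a2, a3, a4⟩ | ⟨a1, a2, a3, a4⟩ <;> rcases h3 with ⟨b1, b2, b3, b4⟩ | ⟨b1, b2, b3, b4⟩ <;>
    linarith

theorem p0_not (x : E2) (hx : x ∈ nb (Phi '' A 2 0 0)) : Phi.symm x ≠ ⟨1 / 3, 7 / 3⟩ := by
  intro h
  obtain ⟨_, ⟨⟨i, hi, m, n, rfl⟩, hne⟩, z, ⟨c, hc, hz⟩, rfl⟩ := hx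
  rw [Phi.symm_apply_apply] at h
  have h1 : z ∈ op (0, 2, false) := by
    rw [mem_op_false, h]
    norm_num
  have h2 := op_cl h1 hz
  rw [h2] at hc
  have h3 := own_of_mem hi hc
  have h4 : own (0, 2, false) = (0, 0, 0) := by decide
  rw [h4] at h3
  simp only [Prod.mk.injEq] at h3
  obtain ⟨rfl, rfl, rfl⟩ := h3
  rw [← Set.image_inter Phi.injective, Set.image_nonempty] at hne
  exact disj02 hne

/-- the boundary polygon of the tile `0` -/
noncomputable def bd : ℕ → ℂ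
  | 0 => ⟨1, 0⟩
  | 1 => ⟨1, 2⟩
  | 2 => ⟨3, 2⟩
  | 3 => ⟨2, 3⟩
  | 4 => ⟨0, 3⟩
  | 5 => ⟨0, 1⟩
  | _ => ⟨1, 0⟩

theorem seg_eq (a b : ℂ) (t : ℝ) : (1 - t) • Phi a + t • Phi b =
    Phi ⟨(1 - t) * a.re + t * b.re, (1 - t) * a.im + t * b.im⟩ := by
  rw [← map_smul, ← map_smul, ← map_add]
  congr 1
  apply Complex.ext <;> simp

theorem seg_nb : ∀ i < 6, ∀ t : ℝ, 0 ≤ t → t ≤ 1 →
    (1 - t) • Phi (bd i) + t • Phi (bd (i + 1)) ∈ nb (Phi '' A 2 0 0) := by
  intro i hi t h0 h1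
  rw [seg_eq]
  interval_cases i
  · apply nb1
    rcases le_total t (1 / 2) with h | h
    · refine mem_A_of (1, 0, false) (by decide) (mem_cl_false.mpr ?_)
      simp only [bd]; push_cast; refine ⟨?_, ?_, ?_⟩ <;> linarith
    · refine mem_A_of (1, 1, false) (by decide) (mem_cl_false.mpr ?_)
      simp only [bd]; push_cast; refine ⟨?_, ?_, ?_⟩ <;> linarith
  · apply nb1
    rcases le_total t (1 / 2) with h | h
    · refine mem_A_of (1, 1, true) (by decide) (mem_cl_true.mpr ?_)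
      simp only [bd]; push_cast; refine ⟨?_, ?_, ?_⟩ <;> linarith
    · refine mem_A_of (2, 1, true) (by decide) (mem_cl_true.mpr ?_)
      simp only [bd]; push_cast; refine ⟨?_, ?_, ?_⟩ <;> linarith
  · apply nb5
    refine mem_A_of (2, 2, true) (by decide) (mem_cl_true.mpr ?_)
    simp only [bd]; push_cast; refine ⟨?_, ?_, ?_⟩ <;> linarith
  · apply nb5
    rcases le_total t (1 / 2) with h | h
    · refine mem_A_of (1, 3, false) (by decide) (mem_cl_false.mpr ?_)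
      simp only [bd]; push_cast; refine ⟨?_, ?_, ?_⟩ <;> linarith
    · refine mem_A_of (0, 3, false) (by decide) (mem_cl_false.mpr ?_)
      simp only [bd]; push_cast; refine ⟨?_, ?_, ?_⟩ <;> linarith
  · apply nb4
    rcases le_total t (1 / 2) with h | h
    · refine mem_A_of (-1, 2, true) (by decide) (mem_cl_true.mpr ?_)
      simp only [bd]; push_cast; refine ⟨?_, ?_, ?_⟩ <;> linarith
    · refine mem_A_of (-1, 1, true) (by decide) (mem_cl_true.mpr ?_)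
      simp only [bd]; push_cast; refine ⟨?_, ?_, ?_⟩ <;> linarith
  · apply nb4
    refine mem_A_of (0, 0, false) (by decide) (mem_cl_false.mpr ?_)
    simp only [bd]; push_cast; refine ⟨?_, ?_, ?_⟩ <;> linarith

theorem im_div_pos {a b : ℂ} (h : 0 < b.im * a.re - b.re * a.im) : 0 < (b / a).im := by
  rw [Complex.div_im]
  have ha : 0 < Complex.normSq a := by
    rw [Complex.normSq_pos]
    rintro rfl
    simp at h
  have : b.im * a.re / Complex.normSq a - b.re * a.im / Complex.normSq a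
      = (b.im * a.re - b.re * a.im) / Complex.normSq a := by ring
  rw [this]
  exact div_pos h ha

theorem nb_not_sc : ¬ SimplyConnectedSpace (nb (Phi '' A 2 0 0)) := by
  refine not_sc (Phi.symm : E2 →L[ℝ] ℂ) ⟨1 / 3, 7 / 3⟩ _ (fun x hx => p0_not x hx)
    (fun i => Phi (bd i)) 6 (by norm_num) rfl seg_nb ?_
  intro i hi
  have e : ∀ z, (Phi.symm : E2 →L[ℝ] ℂ) (Phi z) = z := fun z => Phi.symm_apply_apply z
  rw [e, e]
  apply im_div_pos
  simp only [Complex.sub_re, Complex.sub_im]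
  interval_cases i <;> simp only [bd] <;> norm_num

theorem main :
    ∃ (C : Set E2) (𝒯 : Set (Set E2)), Nonempty (C ≃ₜ Metric.closedBall (0 : E2) 1) ∧
      (∀ T ∈ 𝒯, ∃ f : E2 ≃ᵢ E2, T = f '' C) ∧ ⋃₀ 𝒯 = Set.univ ∧
      𝒯.Pairwise (fun A B => Disjoint (interior A) (interior B)) ∧
      ∃ T ∈ 𝒯, ¬ SimplyConnectedSpace (⋃₀ {T' ∈ 𝒯 | (T' ∩ T).Nonempty}) :=
  ⟨tile, TT, tile_body, TT_iso, TT_cover, TT_pair, Phi '' A 2 0 0, ⟨2, by norm_num, 0, 0, rfl⟩,
    nb_not_sc⟩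

end Pool.Agent.TH802.Chev
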