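import Mathlib

/-!
The chevron tiling, combinatorial part: cells of the triangular lattice (in lattice coordinates), the ten classes of
tiles, and the owner of a cell.
-/

set_option autoImplicit false

namespace Pool.Agent.TH802.Chev

/-- `(a, b, false)`: the triangle `a ≤ x, b ≤ y, x + y ≤ a + b + 1`;
`(a, b, true)`: the triangle `x ≤ a + 1, y ≤ b + 1, a + b + 1 ≤ x + y`. -/
abbrev Cell := ℤ × ℤ × Bool

def rotC (c : Cell) : Cell := (-c.2.1 - 1, if c.2.2 then c.1 + c.2.1 + 1 else c.1 + c.2.1, !c.2.2)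

def trC (m n : ℤ) (c : Cell) : Cell := (c.1 + m, c.2.1 + n, c.2.2)

def L0 : List Cell := [(0, 0, true), (0, 1, false), (0, 1, true), (0, 2, false), (0, 2, true), (1, 2, false),
  (1, 2, true), (2, 2, false)]

/-- rotation number and translation of the ten classes -/
def pos : List (ℕ × ℤ × ℤ) := [(0, 0, 0), (0, 1, -1), (0, 2, -2), (0, -2, -3), (1, 2, -2), (5, -1, 4),
  (5, -2, -3), (5, -2, -2), (5, -2, -1), (4, 1, 0)]

def kk (i : ℕ) : ℕ := (pos.getD i (0, 0, 0)).1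
def uu (i : ℕ) : ℤ := (pos.getD i (0, 0, 0)).2.1
def vv (i : ℕ) : ℤ := (pos.getD i (0, 0, 0)).2.2

/-- the cells of the tile `i`, shifted by `m (5, 0) + n (1, 8)` -/
def cells (i : ℕ) (m n : ℤ) : List Cell :=
  L0.map fun c => trC (5 * m + n) (8 * n) (trC (uu i) (vv i) (rotC^[kk i] c))

def tab : List (List (ℕ × ℤ × ℤ)) :=
  [[(4, 0, 0), (0, 0, 0), (0, 0, 0), (0, 0, 0), (0, 0, 0), (0, 0, 0), (5, 0, 0), (5, 0, 0),
    (6, 0, 1), (6, 0, 1), (7, 0, 1), (7, 0, 1), (8, 0, 1), (8, 0, 1), (3, 0, 1), (3, 0, 1)],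
   [(1, 0, 0), (1, 0, 0), (1, 0, 0), (1, 0, 0), (0, 0, 0), (0, 0, 0), (5, 0, 0), (5, 0, 0),
    (6, 0, 1), (6, 0, 1), (7, 0, 1), (7, 0, 1), (8, 0, 1), (8, 0, 1), (3, 0, 1), (4, 0, 1)],
   [(2, 0, 0), (2, 0, 0), (1, 0, 0), (1, 0, 0), (0, 0, 0), (5, 0, 0), (5, 0, 0), (6, 0, 1),
    (6, 0, 1), (7, 0, 1), (7, 0, 1), (8, 0, 1), (8, 0, 1), (9, 0, 1), (4, 0, 1), (1, 0, 1)],
   [(2, 0, 0), (2, 0, 0), (1, 0, 0), (5, 0, 0), (5, 0, 0), (6, 0, 1), (6, 0, 1), (7, 0, 1),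
    (7, 0, 1), (8, 0, 1), (8, 0, 1), (9, 0, 1), (9, 0, 1), (2, 0, 1), (2, 0, 1), (2, 0, 1)],
   [(2, 0, 0), (4, 1, 0), (4, 1, 0), (4, 1, 0), (4, 1, 0), (4, 1, 0), (9, 0, 1), (9, 0, 1),
    (9, 0, 1), (9, 0, 1), (9, 0, 1), (3, 1, 1), (3, 1, 1), (3, 1, 1), (3, 1, 1), (3, 1, 1)]]

def tb (a b : ℕ) (s : Bool) : ℕ × ℤ × ℤ := (tab.getD a []).getD (2 * b + (if s then 1 else 0)) (0, 0, 0)

/-- the owner of a cell -/
def own (c : Cell) : ℕ × ℤ × ℤ :=
  let n0 := c.2.1 / 8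
  let m0 := (c.1 - n0) / 5
  let t := tb ((c.1 - n0) % 5).toNat (c.2.1 % 8).toNat c.2.2
  (t.1, m0 + t.2.1, n0 + t.2.2)

theorem trC_trC (a b m n : ℤ) (c : Cell) : trC a b (trC m n c) = trC (m + a) (n + b) c := by
  simp only [trC, add_assoc]

theorem own_tr (m n : ℤ) (c : Cell) :
    own (trC (5 * m + n) (8 * n) c) = ((own c).1, (own c).2.1 + m, (own c).2.2 + n) := by
  obtain ⟨a, b, s⟩ := c
  have h1 : (b + 8 * n) / 8 = b / 8 + n := by omega
  have h2 : (b + 8 * n) % 8 = b % 8 := by omega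
  have h3 : (a + (5 * m + n) - (b / 8 + n)) / 5 = (a - b / 8) / 5 + m := by omega
  have h4 : (a + (5 * m + n) - (b / 8 + n)) % 5 = (a - b / 8) % 5 := by omega
  simp only [own, trC, h1, h2, h3, h4, Prod.mk.injEq, true_and]
  constructor <;> ring

theorem own_base : ∀ i < 10, ∀ c ∈ cells i 0 0, own c = (i, 0, 0) := by decide

theorem tab_base : ∀ a < 5, ∀ b < 8, ∀ s : Bool, (tb a b s).1 < 10 ∧
    (((a : ℕ) : ℤ), ((b : ℕ) : ℤ), s) ∈ cells (tb a b s).1 (tb a b s).2.1 (tb a b s).2.2 := by decide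

theorem cells_tr (i : ℕ) (m n : ℤ) (m' n' : ℤ) :
    cells i (m + m') (n + n') = (cells i m n).map (trC (5 * m' + n') (8 * n')) := by
  unfold cells
  rw [List.map_map]
  apply List.map_congr_left
  intro c _
  simp only [Function.comp, trC_trC]
  congr 1 <;> ring

theorem own_of_mem {i : ℕ} (hi : i < 10) {m n : ℤ} {c : Cell} (h : c ∈ cells i m n) :
    own c = (i, m, n) := by
  have h1 := cells_tr i 0 0 m n
  simp only [zero_add] at h1
  rw [h1, List.mem_map] at h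
  obtain ⟨c0, hc0, rfl⟩ := h
  rw [own_tr, own_base i hi c0 hc0]
  simp

theorem mem_own (c : Cell) : (own c).1 < 10 ∧ c ∈ cells (own c).1 (own c).2.1 (own c).2.2 := by
  obtain ⟨a, b, s⟩ := c
  obtain ⟨h1, h2⟩ := tab_base ((a - b / 8) % 5).toNat (by omega) (b % 8).toNat (by omega) s
  have e1 : ((((a - b / 8) % 5).toNat : ℕ) : ℤ) = (a - b / 8) % 5 := by omega
  have e2 : (((b % 8).toNat : ℕ) : ℤ) = b % 8 := by omega
  rw [e1, e2] at h2
  refine ⟨h1, ?_⟩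
  have h3 := cells_tr (tb ((a - b / 8) % 5).toNat (b % 8).toNat s).1
    (tb ((a - b / 8) % 5).toNat (b % 8).toNat s).2.1 (tb ((a - b / 8) % 5).toNat (b % 8).toNat s).2.2
    ((a - b / 8) / 5) (b / 8)
  have h4 : own (a, b, s) = ((tb ((a - b / 8) % 5).toNat (b % 8).toNat s).1,
    (tb ((a - b / 8) % 5).toNat (b % 8).toNat s).2.1 + (a - b / 8) / 5,
    (tb ((a - b / 8) % 5).toNat (b % 8).toNat s).2.2 + b / 8) := by
    simp only [own, add_comm]
  rw [h4]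
  simp only [h3, List.mem_map]
  refine ⟨_, h2, ?_⟩
  simp only [trC, Prod.mk.injEq, and_true]
  constructor <;> omega

end Pool.Agent.TH802.Chev
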