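import Pool.Agent.TH802.Chev.Cells
import Pool.Agent.H927R2.VT.KSTAR
import Pool.Agent.H927R2.VT.KCB

/-!
The chevron tiling, geometric part, in lattice coordinates (`z.re`, `z.im`).
-/

set_option autoImplicit false

namespace Pool.Agent.TH802.Chev

def cl (c : Cell) : Set ℂ :=
  {z | if c.2.2 then z.re ≤ c.1 + 1 ∧ z.im ≤ c.2.1 + 1 ∧ (c.1 : ℝ) + c.2.1 + 1 ≤ z.re + z.im
    else (c.1 : ℝ) ≤ z.re ∧ (c.2.1 : ℝ) ≤ z.im ∧ z.re + z.im ≤ (c.1 : ℝ) + c.2.1 + 1}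

def op (c : Cell) : Set ℂ :=
  {z | if c.2.2 then z.re < c.1 + 1 ∧ z.im < c.2.1 + 1 ∧ (c.1 : ℝ) + c.2.1 + 1 < z.re + z.im
    else (c.1 : ℝ) < z.re ∧ (c.2.1 : ℝ) < z.im ∧ z.re + z.im < (c.1 : ℝ) + c.2.1 + 1}

theorem mem_cl_true {a b : ℤ} {z : ℂ} : z ∈ cl (a, b, true) ↔
    z.re ≤ a + 1 ∧ z.im ≤ b + 1 ∧ (a : ℝ) + b + 1 ≤ z.re + z.im := by simp [cl]
theorem mem_cl_false {a b : ℤ} {z : ℂ} : z ∈ cl (a, b, false) ↔
    (a : ℝ) ≤ z.re ∧ (b : ℝ) ≤ z.im ∧ z.re + z.im ≤ (a : ℝ) + b + 1 := by simp [cl]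
theorem mem_op_true {a b : ℤ} {z : ℂ} : z ∈ op (a, b, true) ↔
    z.re < a + 1 ∧ z.im < b + 1 ∧ (a : ℝ) + b + 1 < z.re + z.im := by simp [op]
theorem mem_op_false {a b : ℤ} {z : ℂ} : z ∈ op (a, b, false) ↔
    (a : ℝ) < z.re ∧ (b : ℝ) < z.im ∧ z.re + z.im < (a : ℝ) + b + 1 := by simp [op]

def rotP (z : ℂ) : ℂ := ⟨-z.im, z.re + z.im⟩
def trP (m n : ℤ) (z : ℂ) : ℂ := ⟨z.re + m, z.im + n⟩

theorem cl_rot (c : Cell) (z : ℂ) : rotP z ∈ cl (rotC c) ↔ z ∈ cl c := by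
  obtain ⟨a, b, s⟩ := c
  cases s
  · have : rotC (a, b, false) = (-b - 1, a + b, true) := rfl
    rw [this, mem_cl_true, mem_cl_false]
    simp only [rotP]
    push_cast
    constructor <;> rintro ⟨h1, h2, h3⟩ <;> refine ⟨?_, ?_, ?_⟩ <;> linarith
  · have : rotC (a, b, true) = (-b - 1, a + b + 1, false) := rfl
    rw [this, mem_cl_true, mem_cl_false]
    simp only [rotP]
    push_cast
    constructor <;> rintro ⟨h1, h2, h3⟩ <;> refine ⟨?_, ?_, ?_⟩ <;> linarith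

theorem cl_tr (m n : ℤ) (c : Cell) (z : ℂ) : trP m n z ∈ cl (trC m n c) ↔ z ∈ cl c := by
  obtain ⟨a, b, s⟩ := c
  cases s
  · have : trC m n (a, b, false) = (a + m, b + n, false) := rfl
    rw [this, mem_cl_false, mem_cl_false]
    simp only [trP]
    push_cast
    constructor <;> rintro ⟨h1, h2, h3⟩ <;> refine ⟨?_, ?_, ?_⟩ <;> linarith
  · have : trC m n (a, b, true) = (a + m, b + n, true) := rfl
    rw [this, mem_cl_true, mem_cl_true]
    simp only [trP]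
    push_cast
    constructor <;> rintro ⟨h1, h2, h3⟩ <;> refine ⟨?_, ?_, ?_⟩ <;> linarith

theorem cl_rot_iter (k : ℕ) (c : Cell) (z : ℂ) : rotP^[k] z ∈ cl (rotC^[k] c) ↔ z ∈ cl c := by
  induction k generalizing c z with
  | zero => rfl
  | succ k ih => rw [Function.iterate_succ_apply, Function.iterate_succ_apply, ih, cl_rot]

theorem rotP_surj : Function.Surjective rotP := by
  intro z
  refine ⟨⟨z.re + z.im, -z.re⟩, ?_⟩
  apply Complex.ext <;> simp [rotP]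

theorem trP_surj (m n : ℤ) : Function.Surjective (trP m n) := by
  intro z
  refine ⟨⟨z.re - m, z.im - n⟩, ?_⟩
  apply Complex.ext <;> simp [trP]

/-- the tile `i`, shifted by `m (5, 0) + n (1, 8)` -/
def A (i : ℕ) (m n : ℤ) : Set ℂ := {z | ∃ c ∈ cells i m n, z ∈ cl c}

/-- the rigid motion that carries the tile `0` to the tile `i, m, n` -/
def gP (i : ℕ) (m n : ℤ) (z : ℂ) : ℂ := trP (5 * m + n) (8 * n) (trP (uu i) (vv i) (rotP^[kk i] z))

theorem cells_zero : cells 0 0 0 = L0 := by decide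

theorem A_eq (i : ℕ) (m n : ℤ) : A i m n = gP i m n '' A 0 0 0 := by
  ext z
  constructor
  · rintro ⟨c, hc, hz⟩
    rw [cells, List.mem_map] at hc
    obtain ⟨c0, hc0, rfl⟩ := hc
    obtain ⟨z1, rfl⟩ := trP_surj (5 * m + n) (8 * n) z
    obtain ⟨z2, rfl⟩ := trP_surj (uu i) (vv i) z1
    obtain ⟨z3, rfl⟩ := (rotP_surj.iterate (kk i)) z2
    rw [cl_tr, cl_tr, cl_rot_iter] at hz
    exact ⟨z3, ⟨c0, by rw [cells_zero]; exact hc0, hz⟩, rfl⟩
  · rintro ⟨z0, ⟨c0, hc0, hz0⟩, rfl⟩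
    rw [cells_zero] at hc0
    refine ⟨_, List.mem_map.mpr ⟨c0, hc0, rfl⟩, ?_⟩
    rw [gP, cl_tr, cl_tr, cl_rot_iter]
    exact hz0

theorem exists_cell (z : ℂ) : ∃ c, z ∈ cl c := by
  rcases le_total (z.re + z.im) (⌊z.re⌋ + ⌊z.im⌋ + 1) with h | h
  · refine ⟨(⌊z.re⌋, ⌊z.im⌋, false), ?_⟩
    rw [mem_cl_false]
    exact ⟨Int.floor_le _, Int.floor_le _, h⟩
  · refine ⟨(⌊z.re⌋, ⌊z.im⌋, true), ?_⟩
    rw [mem_cl_true]
    exact ⟨(Int.lt_floor_add_one _).le, (Int.lt_floor_add_one _).le, h⟩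

theorem A_cover (z : ℂ) : ∃ i < 10, ∃ m n : ℤ, z ∈ A i m n := by
  obtain ⟨c, hc⟩ := exists_cell z
  obtain ⟨h1, h2⟩ := mem_own c
  exact ⟨_, h1, _, _, c, h2, hc⟩

theorem op_cl {c c' : Cell} {z : ℂ} (h : z ∈ op c) (h' : z ∈ cl c') : c' = c := by
  obtain ⟨a, b, s⟩ := c
  obtain ⟨a', b', s'⟩ := c'
  cases s <;> cases s'
  · rw [mem_op_false] at h
    rw [mem_cl_false] at h'
    obtain ⟨h1, h2, h3⟩ := h
    obtain ⟨h4, h5, h6⟩ := h'
    have k1 : (a' : ℝ) < a + 1 := by linarith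
    have k2 : (b' : ℝ) < b + 1 := by linarith
    have k3 : (a : ℝ) + b < a' + b' + 1 := by linarith
    have k1' : a' < a + 1 := by exact_mod_cast k1
    have k2' : b' < b + 1 := by exact_mod_cast k2
    have k3' : a + b < a' + b' + 1 := by exact_mod_cast k3
    have e1 : a' = a := by omega
    have e2 : b' = b := by omega
    rw [e1, e2]
  · exfalso
    rw [mem_op_false] at h
    rw [mem_cl_true] at h'
    obtain ⟨h1, h2, h3⟩ := h
    obtain ⟨h4, h5, h6⟩ := h'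
    have k1 : (a : ℝ) < a' + 1 := by linarith
    have k2 : (b : ℝ) < b' + 1 := by linarith
    have k3 : (a' : ℝ) + b' + 1 < a + b + 1 := by linarith
    have k1' : a < a' + 1 := by exact_mod_cast k1
    have k2' : b < b' + 1 := by exact_mod_cast k2
    have k3' : a' + b' + 1 < a + b + 1 := by exact_mod_cast k3
    omega
  · exfalso
    rw [mem_op_true] at h
    rw [mem_cl_false] at h'
    obtain ⟨h1, h2, h3⟩ := h
    obtain ⟨h4, h5, h6⟩ := h'
    have k1 : (a' : ℝ) < a + 1 := by linarith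
    have k2 : (b' : ℝ) < b + 1 := by linarith
    have k3 : (a : ℝ) + b + 1 < a' + b' + 1 := by linarith
    have k1' : a' < a + 1 := by exact_mod_cast k1
    have k2' : b' < b + 1 := by exact_mod_cast k2
    have k3' : a + b + 1 < a' + b' + 1 := by exact_mod_cast k3
    omega
  · rw [mem_op_true] at h
    rw [mem_cl_true] at h'
    obtain ⟨h1, h2, h3⟩ := h
    obtain ⟨h4, h5, h6⟩ := h'
    have k1 : (a : ℝ) < a' + 1 := by linarith
    have k2 : (b : ℝ) < b' + 1 := by linarith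
    have k3 : (a' : ℝ) + b' < a + b + 1 := by linarith
    have k1' : a < a' + 1 := by exact_mod_cast k1
    have k2' : b < b' + 1 := by exact_mod_cast k2
    have k3' : a' + b' < a + b + 1 := by exact_mod_cast k3
    have e1 : a' = a := by omega
    have e2 : b' = b := by omega
    rw [e1, e2]

noncomputable def cen (c : Cell) : ℂ :=
  if c.2.2 then ⟨c.1 + 2 / 3, c.2.1 + 2 / 3⟩ else ⟨c.1 + 1 / 3, c.2.1 + 1 / 3⟩

theorem toward {c : Cell} {z : ℂ} (h : z ∈ cl c) {t : ℝ} (h0 : 0 < t) (h1 : t ≤ 1) :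
    (((1 - t : ℝ)) : ℂ) * z + ((t : ℝ) : ℂ) * cen c ∈ op c := by
  obtain ⟨a, b, s⟩ := c
  cases s
  · rw [mem_cl_false] at h
    rw [mem_op_false]
    obtain ⟨h4, h5, h6⟩ := h
    have e1 : ((((1 - t : ℝ)) : ℂ) * z + ((t : ℝ) : ℂ) * cen (a, b, false)).re
        = (1 - t) * z.re + t * (a + 1 / 3) := by simp [cen]
    have e2 : ((((1 - t : ℝ)) : ℂ) * z + ((t : ℝ) : ℂ) * cen (a, b, false)).im
        = (1 - t) * z.im + t * (b + 1 / 3) := by simp [cen]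
    rw [e1, e2]
    refine ⟨?_, ?_, ?_⟩ <;> nlinarith
  · rw [mem_cl_true] at h
    rw [mem_op_true]
    obtain ⟨h4, h5, h6⟩ := h
    have e1 : ((((1 - t : ℝ)) : ℂ) * z + ((t : ℝ) : ℂ) * cen (a, b, true)).re
        = (1 - t) * z.re + t * (a + 2 / 3) := by simp [cen]
    have e2 : ((((1 - t : ℝ)) : ℂ) * z + ((t : ℝ) : ℂ) * cen (a, b, true)).im
        = (1 - t) * z.im + t * (b + 2 / 3) := by simp [cen]
    rw [e1, e2]
    refine ⟨?_, ?_, ?_⟩ <;> nlinarith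

/-- an open set inside two tiles meets an open cell of both -/
theorem A_disj {i i' : ℕ} {m n m' n' : ℤ} (hi : i < 10) (hi' : i' < 10) {O : Set ℂ} (hO : IsOpen O)
    (hne : O.Nonempty) (h : O ⊆ A i m n) (h' : O ⊆ A i' m' n') : (i, m, n) = (i', m', n') := by
  obtain ⟨z, hz⟩ := hne
  obtain ⟨c, hc, hzc⟩ := h hz
  let F : ℝ → ℂ := fun t => (((1 - t : ℝ)) : ℂ) * z + ((t : ℝ) : ℂ) * cen c
  have hF : Continuous F := by fun_prop
  have hF0 : F 0 = z := by simp [F]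
  have hev : ∀ᶠ t in nhds (0 : ℝ), F t ∈ O := hF.continuousAt (hO.mem_nhds (by rw [hF0]; exact hz))
  obtain ⟨ε, hε, hball⟩ := Metric.eventually_nhds_iff.mp hev
  set t := min (ε / 2) 1 with ht
  have ht0 : 0 < t := lt_min (by linarith) one_pos
  have ht1 : t ≤ 1 := min_le_right _ _
  have htO : F t ∈ O := by
    apply hball
    rw [Real.dist_eq, sub_zero, abs_of_pos ht0]
    have : t ≤ ε / 2 := min_le_left _ _
    linarith
  obtain ⟨c', hc', hzc'⟩ := h' htO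
  have hcc : c' = c := op_cl (toward hzc ht0 ht1) hzc'
  rw [hcc] at hc'
  rw [← own_of_mem hi hc, ← own_of_mem hi' hc']

/-- the tile in terms of inequalities -/
theorem mem_A0 (z : ℂ) : z ∈ A 0 0 0 ↔
    (0 ≤ z.re ∧ z.re ≤ 1 ∧ z.im ≤ 3 ∧ 1 ≤ z.re + z.im) ∨
    (2 ≤ z.im ∧ z.im ≤ 3 ∧ 0 ≤ z.re ∧ z.re + z.im ≤ 5) := by
  have key : z ∈ A 0 0 0 ↔ (z ∈ cl (0, 0, true) ∨ z ∈ cl (0, 1, false) ∨ z ∈ cl (0, 1, true) ∨
      z ∈ cl (0, 2, false) ∨ z ∈ cl (0, 2, true) ∨ z ∈ cl (1, 2, false) ∨ z ∈ cl (1, 2, true) ∨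
      z ∈ cl (2, 2, false)) := by
    simp only [A, cells_zero, L0, Set.mem_ofPred_eq, List.mem_cons, List.not_mem_nil, or_false,
      exists_eq_or_imp, exists_eq_left]
  rw [key]
  simp only [mem_cl_true, mem_cl_false]
  push_cast
  constructor
  · rintro (⟨h1, h2, h3⟩ | ⟨h1, h2, h3⟩ | ⟨h1, h2, h3⟩ | ⟨h1, h2, h3⟩ | ⟨h1, h2, h3⟩ | ⟨h1, h2, h3⟩ |
      ⟨h1, h2, h3⟩ | ⟨h1, h2, h3⟩)
    · left; refine ⟨?_, ?_, ?_, ?_⟩ <;> linarith
    · left; refine ⟨?_, ?_, ?_, ?_⟩ <;> linarith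
    · left; refine ⟨?_, ?_, ?_, ?_⟩ <;> linarith
    · left; refine ⟨?_, ?_, ?_, ?_⟩ <;> linarith
    · left; refine ⟨?_, ?_, ?_, ?_⟩ <;> linarith
    · right; refine ⟨?_, ?_, ?_, ?_⟩ <;> linarith
    · right; refine ⟨?_, ?_, ?_, ?_⟩ <;> linarith
    · right; refine ⟨?_, ?_, ?_, ?_⟩ <;> linarith
  · rintro (⟨h1, h2, h3, h4⟩ | ⟨h1, h2, h3, h4⟩)
    · rcases le_total z.im 1 with g1 | g1
      · left; refine ⟨?_, ?_, ?_⟩ <;> linarith
      rcases le_total (z.re + z.im) 2 with g2 | g2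
      · right; left; refine ⟨?_, ?_, ?_⟩ <;> linarith
      rcases le_total z.im 2 with g3 | g3
      · right; right; left; refine ⟨?_, ?_, ?_⟩ <;> linarith
      rcases le_total (z.re + z.im) 3 with g4 | g4
      · right; right; right; left; refine ⟨?_, ?_, ?_⟩ <;> linarith
      · right; right; right; right; left; refine ⟨?_, ?_, ?_⟩ <;> linarith
    · rcases le_total (z.re + z.im) 3 with g1 | g1
      · right; right; right; left; refine ⟨?_, ?_, ?_⟩ <;> linarith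
      rcases le_total z.re 1 with g2 | g2
      · right; right; right; right; left; refine ⟨?_, ?_, ?_⟩ <;> linarith
      rcases le_total (z.re + z.im) 4 with g3 | g3
      · right; right; right; right; right; left; refine ⟨?_, ?_, ?_⟩ <;> linarith
      rcases le_total z.re 2 with g4 | g4
      · right; right; right; right; right; right; left; refine ⟨?_, ?_, ?_⟩ <;> linarith
      · right; right; right; right; right; right; right; refine ⟨?_, ?_, ?_⟩ <;> linarith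

noncomputable def gg (z : ℂ) : ℝ :=
  min (max |2 * z.re| (max (2 * z.im) (-(z.re + z.im) / 2)))
    (max |2 * z.im| (max (-(2 * z.re)) ((z.re + z.im) / 2)))

theorem gg_cont : Continuous gg := by
  unfold gg
  fun_prop

theorem gg_hom (t : ℝ) (ht : 0 ≤ t) (x : ℂ) : gg ((t : ℂ) * x) = t * gg x := by
  have h1 : ((t : ℂ) * x).re = t * x.re := by simp
  have h2 : ((t : ℂ) * x).im = t * x.im := by simp
  unfold gg
  rw [h1, h2, mul_min_of_nonneg _ _ ht, mul_max_of_nonneg _ _ ht, mul_max_of_nonneg _ _ ht,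
    mul_max_of_nonneg _ _ ht, mul_max_of_nonneg _ _ ht]
  have a1 : |2 * (t * x.re)| = t * |2 * x.re| := by
    rw [show 2 * (t * x.re) = t * (2 * x.re) by ring, abs_mul, abs_of_nonneg ht]
  have a2 : |2 * (t * x.im)| = t * |2 * x.im| := by
    rw [show 2 * (t * x.im) = t * (2 * x.im) by ring, abs_mul, abs_of_nonneg ht]
  have b1 : 2 * (t * x.im) = t * (2 * x.im) := by ring
  have b2 : -(t * x.re + t * x.im) / 2 = t * (-(x.re + x.im) / 2) := by ring
  have b3 : -(2 * (t * x.re)) = t * (-(2 * x.re)) := by ring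
  have b4 : (t * x.re + t * x.im) / 2 = t * ((x.re + x.im) / 2) := by ring
  rw [a1, a2, b1, b2, b3, b4]

theorem gg_pos (x : ℂ) (hx : x ≠ 0) : 0 < gg x := by
  unfold gg
  rw [lt_min_iff]
  constructor
  · rw [lt_max_iff, lt_max_iff]
    by_cases h : x.re = 0
    · right
      rcases lt_trichotomy x.im 0 with h2 | h2 | h2
      · right; rw [h]; linarith
      · exact absurd (Complex.ext h h2) hx
      · left; linarith
    · left; exact abs_pos.mpr (mul_ne_zero two_ne_zero h)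
  · rw [lt_max_iff, lt_max_iff]
    by_cases h : x.im = 0
    · right
      rcases lt_trichotomy x.re 0 with h2 | h2 | h2
      · left; linarith
      · exact absurd (Complex.ext h2 h) hx
      · right; rw [h]; linarith
    · left; exact abs_pos.mpr (mul_ne_zero two_ne_zero h)

theorem mem_A0_gg (z : ℂ) : z ∈ A 0 0 0 ↔ gg (z - ⟨1 / 2, 5 / 2⟩) ≤ 1 := by
  rw [mem_A0]
  unfold gg
  rw [min_le_iff, max_le_iff, max_le_iff, max_le_iff, max_le_iff, abs_le, abs_le]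
  simp only [Complex.sub_re, Complex.sub_im]
  constructor
  · rintro (⟨h1, h2, h3, h4⟩ | ⟨h1, h2, h3, h4⟩)
    · left; refine ⟨⟨?_, ?_⟩, ?_, ?_⟩ <;> linarith
    · right; refine ⟨⟨?_, ?_⟩, ?_, ?_⟩ <;> linarith
  · rintro (⟨⟨h1, h2⟩, h3, h4⟩ | ⟨⟨h1, h2⟩, h3, h4⟩)
    · left; refine ⟨?_, ?_, ?_, ?_⟩ <;> linarith
    · right; refine ⟨?_, ?_, ?_, ?_⟩ <;> linarith

theorem A0_body : Nonempty (A 0 0 0 ≃ₜ Metric.closedBall (0 : EuclideanSpace ℝ (Fin 2)) 1) := by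
  obtain ⟨-, ⟨e1⟩⟩ := VT927.k_STAR gg gg_cont gg_hom gg_pos
  obtain ⟨e2⟩ := VT927.k_CB
  have h : A 0 0 0 = Homeomorph.addRight (⟨1 / 2, 5 / 2⟩ : ℂ) '' {x : ℂ | gg x ≤ 1} := by
    ext z
    rw [mem_A0_gg]
    constructor
    · intro h
      exact ⟨z - ⟨1 / 2, 5 / 2⟩, h, by simp⟩
    · rintro ⟨w, hw, rfl⟩
      simpa using hw
  rw [h]
  exact ⟨(Homeomorph.image _ _).symm.trans (e1.trans e2)⟩

end Pool.Agent.TH802.Chev
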