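import Mathlib

/-!
A polygon that winds around a missing point shows that a plane set is not simply connected.
-/

set_option autoImplicit false

open Complex

namespace Pool.Agent.TH802.Chev

/-- every lift of the starting point lifts the path and ends `δ` further -/
def Lifts {X : Type*} [TopologicalSpace X] (F : X → ℂ) {x y : X} (γ : Path x y) (δ : ℂ) : Prop :=
  ∀ e : ℂ, exp e = F x → ∃ Γ : Path e (e + δ), ∀ t, exp (Γ t) = F (γ t)

theorem Lifts.refl {X : Type*} [TopologicalSpace X] (F : X → ℂ) (x : X) :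
    Lifts F (Path.refl x) 0 := by
  intro e he
  refine ⟨(Path.refl e).cast rfl (by simp), fun t => ?_⟩
  simp [he]

theorem Lifts.trans {X : Type*} [TopologicalSpace X] {F : X → ℂ} {x y z : X} {γ : Path x y}
    {γ' : Path y z} {δ δ' : ℂ} (h : Lifts F γ δ) (h' : Lifts F γ' δ') :
    Lifts F (γ.trans γ') (δ + δ') := by
  intro e he
  obtain ⟨Γ, hΓ⟩ := h e he
  have h1 : exp (e + δ) = F y := by
    have := hΓ 1
    simpa using this
  obtain ⟨Γ', hΓ'⟩ := h' (e + δ) h1
  refine ⟨(Γ.trans Γ').cast rfl (by ring), fun t => ?_⟩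
  simp only [Path.cast_coe, Path.trans_apply]
  split_ifs with ht
  · exact hΓ _
  · exact hΓ' _

theorem Lifts.cast {X : Type*} [TopologicalSpace X] {F : X → ℂ} {x y x' y' : X} {γ : Path x y}
    {δ : ℂ} (h : Lifts F γ δ) (hx : x' = x) (hy : y' = y) : Lifts F (γ.cast hx hy) δ := by
  subst hx hy
  exact h

/-- straight segments turning counterclockwise around `0` -/
theorem lifts_seg {X : Type*} [TopologicalSpace X] {F : X → ℂ} {x y : X} {γ : Path x y}
    (hx : F x ≠ 0) (him : 0 < (F y / F x).im)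
    (hγ : ∀ t : unitInterval, F (γ t) = (1 - (t : ℝ)) * F x + (t : ℝ) * F y) :
    Lifts F γ (log (F y / F x)) := by
  intro e he
  set r := F y / F x with hr
  have hre : F y = r * F x := by rw [hr]; field_simp
  have hmem : ∀ t : unitInterval, (1 + ((t : ℝ) : ℂ) * (r - 1)) ∈ slitPlane := by
    intro t
    rcases eq_or_lt_of_le t.2.1 with h0 | h0
    · rw [← h0]; simp
    · right
      have : (1 + ((t : ℝ) : ℂ) * (r - 1)).im = (t : ℝ) * r.im := by simp
      rw [this]
      exact (mul_pos h0 him).ne'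
  have hr1 : r ∈ slitPlane := Or.inr him.ne'
  let Γ : Path e (e + log r) :=
    { toFun := fun t => e + log (1 + ((t : ℝ) : ℂ) * (r - 1))
      continuous_toFun := by
        refine continuous_const.add ?_
        refine Continuous.clog ?_ hmem
        fun_prop
      source' := by simp
      target' := by simp }
  refine ⟨Γ, fun t => ?_⟩
  have h1 : Γ t = e + log (1 + ((t : ℝ) : ℂ) * (r - 1)) := rfl
  rw [h1, exp_add, exp_log (slitPlane_ne_zero (hmem t)), he, hγ t, hre]
  ring

theorem chain {X : Type*} [TopologicalSpace X] {F : X → ℂ} (w : ℕ → X) (n : ℕ)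
    (h : ∀ i < n, ∃ (γ : Path (w i) (w (i + 1))) (δ : ℂ), 0 < δ.im ∧ Lifts F γ δ) :
    ∃ (γ : Path (w 0) (w n)) (δ : ℂ), 0 ≤ δ.im ∧ (0 < n → 0 < δ.im) ∧ Lifts F γ δ := by
  induction n with
  | zero => exact ⟨Path.refl _, 0, by simp, by simp, Lifts.refl F _⟩
  | succ n ih =>
    obtain ⟨γ, δ, h1, -, h2⟩ := ih fun i hi => h i (by omega)
    obtain ⟨γ', δ', h3, h4⟩ := h n (by omega)
    refine ⟨γ.trans γ', δ + δ', ?_, fun _ => ?_, h2.trans h4⟩
    · rw [add_im]; linarith
    · rw [add_im]; linarith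

theorem not_sc_of_loop {X : Type*} [TopologicalSpace X] {F : X → ℂ} (hF : Continuous F)
    (hF0 : ∀ x, F x ≠ 0) {x : X} (γ : Path x x) {δ : ℂ} (hδ : δ ≠ 0) (h : Lifts F γ δ) :
    ¬ SimplyConnectedSpace X := by
  intro hX
  have cov := Complex.isCoveringMap_exp
  let F' : C(X, {z : ℂ // z ≠ 0}) := ⟨fun x => ⟨F x, hF0 x⟩, by fun_prop⟩
  have hh : Path.Homotopic γ (Path.refl x) := SimplyConnectedSpace.paths_homotopic γ (Path.refl x)
  have hh2 : Path.Homotopic (γ.map F'.continuous) ((Path.refl x).map F'.continuous) :=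
    hh.map F'
  obtain ⟨Γ, hΓ⟩ := h (log (F x)) (exp_log (hF0 x))
  have e0 : (γ.map F'.continuous).toContinuousMap 0
      = (fun z : ℂ ↦ (⟨_, z.exp_ne_zero⟩ : {z : ℂ // z ≠ 0})) (log (F x)) := by
    apply Subtype.ext
    simp [F', exp_log (hF0 x)]
  have e1 : ((Path.refl x).map F'.continuous).toContinuousMap 0
      = (fun z : ℂ ↦ (⟨_, z.exp_ne_zero⟩ : {z : ℂ // z ≠ 0})) (log (F x)) := by
    apply Subtype.ext
    simp [F', exp_log (hF0 x)]
  have key := cov.liftPath_apply_one_eq_of_homotopicRel hh2 (log (F x)) e0 e1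
  have l0 : Γ.toContinuousMap = cov.liftPath (γ.map F'.continuous).toContinuousMap
      (log (F x)) e0 := by
    rw [cov.eq_liftPath_iff']
    refine ⟨funext fun t => Subtype.ext ?_, by simp⟩
    simpa [F'] using hΓ t
  have l1 : (ContinuousMap.const unitInterval (log (F x))) =
      cov.liftPath ((Path.refl x).map F'.continuous).toContinuousMap
      (log (F x)) e1 := by
    rw [cov.eq_liftPath_iff']
    refine ⟨funext fun t => Subtype.ext ?_, by simp⟩
    simp [F', exp_log (hF0 x)]
  rw [← l0, ← l1] at key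
  have : Γ 1 = log (F x) := key
  rw [Γ.target] at this
  apply hδ
  linear_combination this

/-- A set `N` of the plane (with coordinates `ψ`) that misses `p0` and contains a polygon that turns
counterclockwise around `p0` is not simply connected. -/
theorem not_sc {E : Type*} [AddCommGroup E] [Module ℝ E] [TopologicalSpace E]
    [IsTopologicalAddGroup E] [ContinuousSMul ℝ E] (ψ : E →L[ℝ] ℂ) (p0 : ℂ) (N : Set E)
    (hN : ∀ x ∈ N, ψ x ≠ p0) (v : ℕ → E) (n : ℕ) (hn : 0 < n) (hv : v n = v 0)
    (hseg : ∀ i < n, ∀ t : ℝ, 0 ≤ t → t ≤ 1 → (1 - t) • v i + t • v (i + 1) ∈ N)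
    (him : ∀ i < n, 0 < ((ψ (v (i + 1)) - p0) / (ψ (v i) - p0)).im) :
    ¬ SimplyConnectedSpace N := by
  have hmem : ∀ i, i ≤ n → v i ∈ N := by
    intro i hi
    rcases Nat.lt_or_ge i n with h | h
    · have := hseg i h 0 le_rfl zero_le_one
      simpa using this
    · have h2 : i = n := le_antisymm hi h
      rw [h2, hv]
      have := hseg 0 hn 0 le_rfl zero_le_one
      simpa using this
  let w : ℕ → N := fun i => if h : i ≤ n then ⟨v i, hmem i h⟩ else ⟨v 0, hmem 0 (by omega)⟩
  have hw : ∀ i, i ≤ n → (w i : E) = v i := by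
    intro i hi
    simp [w, hi]
  let F : N → ℂ := fun x => ψ x - p0
  have hF : Continuous F := by fun_prop
  have hF0 : ∀ x, F x ≠ 0 := fun x => sub_ne_zero.mpr (hN x x.2)
  obtain ⟨γ, δ, -, h2, h3⟩ := chain (F := F) w n (by
    intro i hi
    have hi1 := hw i hi.le
    have hi2 := hw (i + 1) hi
    let γ : Path (w i) (w (i + 1)) :=
      { toFun := fun t => ⟨(1 - (t : ℝ)) • v i + (t : ℝ) • v (i + 1), hseg i hi t t.2.1 t.2.2⟩
        continuous_toFun := by
          apply Continuous.subtype_mk
          fun_prop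
        source' := by
          apply Subtype.ext
          simp [hi1]
        target' := by
          apply Subtype.ext
          simp [hi2] }
    refine ⟨γ, log (F (w (i + 1)) / F (w i)), ?_, ?_⟩
    · rw [log_im]
      have h4 : 0 < (F (w (i + 1)) / F (w i)).im := by
        simp only [F, hi1, hi2]
        exact him i hi
      have h5 := (Complex.arg_nonneg_iff (z := F (w (i + 1)) / F (w i))).mpr h4.le
      refine lt_of_le_of_ne h5 ?_
      intro h6
      have := (Complex.arg_eq_zero_iff (z := F (w (i + 1)) / F (w i))).mp h6.symm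
      linarith [this.2]
    · apply lifts_seg (hF0 _)
      · simp only [F, hi1, hi2]
        exact him i hi
      · intro t
        have h7 : ((γ t : N) : E) = (1 - (t : ℝ)) • v i + (t : ℝ) • v (i + 1) := rfl
        simp only [F, h7, hi1, hi2, map_add, map_smul, real_smul]
        push_cast
        ring)
  have hww : w n = w 0 := by
    apply Subtype.ext
    rw [hw n le_rfl, hw 0 (by omega), hv]
  refine not_sc_of_loop hF hF0 (γ.cast rfl hww.symm) (δ := δ) ?_ (h3.cast rfl hww.symm)
  intro h
  have := h2 hn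
  rw [h] at this
  simp at this

end Pool.Agent.TH802.Chev
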