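import Pool.Agent.TH802.Chev.Geo
import Pool.Agent.TH802.Chev.NotSC

/-!
A tiling of the plane by congruent chevrons in which some tile has a neighbourhood that is not simply connected.
-/

set_option autoImplicit false

namespace Pool.Agent.TH802.Chev

abbrev E2 := EuclideanSpace ℝ (Fin 2)

/-- lattice coordinates to the Euclidean plane -/
noncomputable def Phi0 : ℂ ≃ₗ[ℝ] E2 where
  toFun z := !₂[z.re + z.im / 2, Real.sqrt 3 / 2 * z.im]
  invFun p := ⟨p 0 - p 1 / Real.sqrt 3, 2 / Real.sqrt 3 * p 1⟩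
  map_add' z w := by
    ext i
    fin_cases i <;> simp <;> ring
  map_smul' t z := by
    ext i
    fin_cases i <;> simp <;> ring
  left_inv z := by
    have h3 : Real.sqrt 3 ≠ 0 := by positivity
    apply Complex.ext
    · simp
      field_simp
      ring
    · simp
      field_simp
  right_inv p := by
    have h3 : Real.sqrt 3 ≠ 0 := by positivity
    ext i
    fin_cases i
    · simp
      field_simp
      ring
    · simp
      field_simp

noncomputable def Phi : ℂ ≃L[ℝ] E2 := Phi0.toContinuousLinearEquiv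

theorem Phi_norm_sq (z : ℂ) : ‖Phi z‖ ^ 2 = z.re ^ 2 + z.re * z.im + z.im ^ 2 := by
  have h : Phi z = !₂[z.re + z.im / 2, Real.sqrt 3 / 2 * z.im] := rfl
  rw [h, EuclideanSpace.norm_sq_eq]
  simp only [Fin.sum_univ_two, Real.norm_eq_abs, sq_abs]
  have h3 : Real.sqrt 3 ^ 2 = 3 := Real.sq_sqrt (by norm_num)
  simp
  nlinarith [h3]

theorem Phi_norm_rot (z : ℂ) : ‖Phi (rotP z)‖ = ‖Phi z‖ := by
  have h : ‖Phi (rotP z)‖ ^ 2 = ‖Phi z‖ ^ 2 := by
    rw [Phi_norm_sq, Phi_norm_sq]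
    simp only [rotP]
    ring
  exact (pow_left_inj₀ (norm_nonneg _) (norm_nonneg _) two_ne_zero).mp h

theorem rotP_sub (z w : ℂ) : rotP (z - w) = rotP z - rotP w := by
  apply Complex.ext
  · simp [rotP]; ring
  · simp [rotP]; ring

theorem exists_rot : ∃ f : E2 ≃ᵢ E2, ∀ z, f (Phi z) = Phi (rotP z) := by
  refine ⟨IsometryEquiv.mk' (fun p => Phi (rotP (Phi.symm p)))
    (fun p => Phi ⟨(Phi.symm p).re + (Phi.symm p).im, -(Phi.symm p).re⟩) ?_ ?_, ?_⟩
  · intro p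
    rw [Phi.symm_apply_apply]
    have : rotP ⟨(Phi.symm p).re + (Phi.symm p).im, -(Phi.symm p).re⟩ = Phi.symm p := by
      apply Complex.ext <;> simp [rotP]
    rw [this, Phi.apply_symm_apply]
  · refine Isometry.of_dist_eq fun p q => ?_
    rw [dist_eq_norm, dist_eq_norm, ← map_sub, ← rotP_sub, Phi_norm_rot, ← map_sub,
      Phi.apply_symm_apply]
  · intro z
    show Phi (rotP (Phi.symm (Phi z))) = _
    rw [Phi.symm_apply_apply]

theorem exists_rot_iter (k : ℕ) : ∃ f : E2 ≃ᵢ E2, ∀ z, f (Phi z) = Phi (rotP^[k] z) := by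
  induction k with
  | zero => exact ⟨IsometryEquiv.refl _, fun z => rfl⟩
  | succ k ih =>
    obtain ⟨f, hf⟩ := ih
    obtain ⟨g, hg⟩ := exists_rot
    refine ⟨f.trans g, fun z => ?_⟩
    rw [IsometryEquiv.trans_apply, hf, hg, Function.iterate_succ_apply']

theorem trP_eq (m n : ℤ) (z : ℂ) : trP m n z = z + ⟨m, n⟩ := by
  apply Complex.ext <;> simp [trP]

theorem exists_gP (i : ℕ) (m n : ℤ) : ∃ f : E2 ≃ᵢ E2, ∀ z, f (Phi z) = Phi (gP i m n z) := by
  obtain ⟨f, hf⟩ := exists_rot_iter (kk i)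
  refine ⟨(f.trans (IsometryEquiv.addRight (Phi ⟨uu i, vv i⟩))).trans
    (IsometryEquiv.addRight (Phi ⟨((5 * m + n : ℤ) : ℝ), ((8 * n : ℤ) : ℝ)⟩)), fun z => ?_⟩
  rw [IsometryEquiv.trans_apply, IsometryEquiv.trans_apply, hf, gP, trP_eq, trP_eq]
  simp only [IsometryEquiv.addRight_apply, map_add]

/-- the tile -/
def tile : Set E2 := Phi '' A 0 0 0

/-- the tiling -/
def TT : Set (Set E2) := {S | ∃ i < 10, ∃ m n : ℤ, S = Phi '' A i m n}

theorem tile_body : Nonempty (tile ≃ₜ Metric.closedBall (0 : E2) 1) := by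
  obtain ⟨e⟩ := A0_body
  exact ⟨(Phi.toHomeomorph.image (A 0 0 0)).symm.trans e⟩

theorem TT_iso (S : Set E2) (hS : S ∈ TT) : ∃ f : E2 ≃ᵢ E2, S = f '' tile := by
  obtain ⟨i, hi, m, n, rfl⟩ := hS
  obtain ⟨f, hf⟩ := exists_gP i m n
  refine ⟨f, ?_⟩
  rw [A_eq, tile, Set.image_image, Set.image_image]
  exact Set.image_congr fun z _ => (hf z).symm

theorem TT_cover : ⋃₀ TT = Set.univ := by
  rw [Set.eq_univ_iff_forall]
  intro p
  obtain ⟨i, hi, m, n, h⟩ := A_cover (Phi.symm p)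
  exact ⟨_, ⟨i, hi, m, n, rfl⟩, _, h, Phi.apply_symm_apply p⟩

theorem TT_pair : TT.Pairwise (fun A B => Disjoint (interior A) (interior B)) := by
  rintro _ ⟨i, hi, m, n, rfl⟩ _ ⟨i', hi', m', n', rfl⟩ hne
  rw [Set.disjoint_iff_inter_eq_empty]
  by_contra hcon
  have hcon' := Set.nonempty_iff_ne_empty.mpr hcon
  apply hne
  have hint : ∀ S : Set ℂ, interior (Phi '' S) = Phi '' interior S := fun S =>
    (Phi.toHomeomorph.image_interior S).symm
  rw [hint, hint, ← Set.image_inter Phi.injective, Set.image_nonempty] at hcon'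
  have h := A_disj hi hi' (isOpen_interior.inter isOpen_interior) hcon'
    (Set.inter_subset_left.trans interior_subset) (Set.inter_subset_right.trans interior_subset)
  simp only [Prod.mk.injEq] at h
  obtain ⟨rfl, rfl, rfl⟩ := h
  rfl

/-- the union of the tiles that meet `T` -/
def nb (T : Set E2) : Set E2 := ⋃₀ {T' ∈ TT | (T' ∩ T).Nonempty}

theorem mem_A_of {i : ℕ} {m n : ℤ} {z : ℂ} (c : Cell) (hc : c ∈ cells i m n) (hz : z ∈ cl c) :
    z ∈ A i m n := ⟨c, hc, hz⟩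

theorem sub_nb {i : ℕ} (hi : i < 10) {m n : ℤ} {w : ℂ} (h1 : w ∈ A i m n) (h2 : w ∈ A 2 0 0) {z : ℂ}
    (hz : z ∈ A i m n) : Phi z ∈ nb (Phi '' A 2 0 0) :=
  ⟨_, ⟨⟨i, hi, m, n, rfl⟩, Phi w, ⟨w, h1, rfl⟩, ⟨w, h2, rfl⟩⟩, z, hz, rfl⟩

theorem nb1 {z : ℂ} (hz : z ∈ A 1 0 0) : Phi z ∈ nb (Phi '' A 2 0 0) := by
  refine sub_nb (by norm_num) (w := ⟨2, 0⟩) ?_ ?_ hz
  · exact mem_A_of (1, 0, false) (by decide) (mem_cl_false.mpr (by norm_num))
  · exact mem_A_of (2, 0, false) (by decide) (mem_cl_false.mpr (by norm_num))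

theorem nb4 {z : ℂ} (hz : z ∈ A 4 0 0) : Phi z ∈ nb (Phi '' A 2 0 0) := by
  refine sub_nb (by norm_num) (w := ⟨2, -1⟩) ?_ ?_ hz
  · exact mem_A_of (1, -1, false) (by decide) (mem_cl_false.mpr (by norm_num))
  · exact mem_A_of (2, -1, false) (by decide) (mem_cl_false.mpr (by norm_num))

theorem nb5 {z : ℂ} (hz : z ∈ A 5 0 0) : Phi z ∈ nb (Phi '' A 2 0 0) := by
  refine sub_nb (by norm_num) (w := ⟨4, 1⟩) ?_ ?_ hz
  · exact mem_A_of (3, 1, true) (by decide) (mem_cl_true.mpr (by norm_num))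
  · exact mem_A_of (4, 0, false) (by decide) (mem_cl_false.mpr (by norm_num))

end Pool.Agent.TH802.Chev
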